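import Pool.Agent.Helper40.BP.Defs

set_option autoImplicit false

namespace Pool.Agent.Helper40.BP

open Finset

universe u

namespace UAlg

variable {A : UAlg.{u}}

theorem add_self (a : A.H) : a + a = 0 := by
  have h : (2 : ZMod 2) • a = 0 := by
    have : (2 : ZMod 2) = 0 := by decide
    rw [this, zero_smul]
  rw [two_smul] at h
  exact h

theorem eq_of_sub {a b : A.H} (h : a - b = 0) : a = b := sub_eq_zero.mp h

theorem mul_mem {i j : ℕ} {a b : A.H} (ha : a ∈ A.gr i) (hb : b ∈ A.gr j) : a * b ∈ A.gr (i + j) :=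
  SetLike.mul_mem_graded ha hb

theorem nsmul_odd {n : ℕ} (hn : Odd n) (a : A.H) : n • a = a := by
  obtain ⟨t, rfl⟩ := hn
  rw [add_smul, mul_comm, mul_smul, one_smul, two_smul, add_self, smul_zero, zero_add]

theorem Periodic.top {k : ℕ} {x : A.H} (hk : 0 < k) (h : A.Periodic k x (2 * k)) {z : A.H}
    (hz : z ∈ A.gr k) : z = 0 ∨ z = x := by
  obtain ⟨u, hu, rfl⟩ := h.1 0 (by omega) z (by simpa using hz)
  rcases A.connected u hu with rfl | rfl
  · left; simp
  · right; simp

theorem Periodic.cancel {k : ℕ} {x : A.H} (h : A.Periodic k x (2 * k)) {i : ℕ} (hi : 0 < i)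
    (hik : i ≤ k) {a b : A.H} (ha : a ∈ A.gr i) (hb : b ∈ A.gr i) (hab : x * a = x * b) :
    a = b := by
  apply eq_of_sub
  apply h.2 i hi (by omega) _ (Submodule.sub_mem _ ha hb)
  rw [mul_sub, hab, sub_self]

theorem Periodic.sq_ne {k : ℕ} {x : A.H} (hk : 0 < k) (hx : x ∈ A.gr k) (hx0 : x ≠ 0)
    (h : A.Periodic k x (2 * k)) : x * x ≠ 0 :=
  fun h0 => hx0 (h.2 k hk (by omega) x hx h0)

/-- a factor of a periodicity inducing element induces periodicity -/
theorem Periodic.factor {k : ℕ} {x : A.H} (h : A.Periodic k x (2 * k)) {i j : ℕ} (hi : 0 < i)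
    (hij : i + j = k) {y z : A.H} (hy : y ∈ A.gr i) (hz : z ∈ A.gr j) (hyz : y * z = x) :
    A.Periodic i y (2 * k) := by
  constructor
  · intro e he w hw
    by_cases hek : k ≤ e + i
    · obtain ⟨w', hw', hxw⟩ := h.1 (e + i - k) (by omega) w
        (by rw [show e + i - k + k = e + i by omega]; exact hw)
      refine ⟨z * w', ?_, ?_⟩
      · have := mul_mem hz hw'
        rwa [show j + (e + i - k) = e by omega] at this
      · rw [← hxw, ← hyz]; ring
    · have hzw : z * w ∈ A.gr (e + k) := by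
        have := mul_mem hz hw
        rwa [show j + (e + i) = e + k by omega] at this
      obtain ⟨v, hv, hxv⟩ := h.1 e (by omega) _ hzw
      refine ⟨v, hv, ?_⟩
      have hyv : y * v ∈ A.gr (e + i) := by
        have := mul_mem hy hv
        rwa [add_comm] at this
      apply h.cancel (i := e + i) (by omega) (by omega) hyv hw
      rw [← hyz] at hxv ⊢
      calc y * z * (y * v) = y * (y * z * v) := by ring
        _ = y * (z * w) := by rw [hxv]
        _ = y * z * w := by ring
  · intro e he hei u hu hyu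
    have hxu : x * u = 0 := by rw [← hyz, mul_comm y z, mul_assoc, hyu, mul_zero]
    by_cases hek : e ≤ k
    · exact h.2 e he (by omega) u hu hxu
    · obtain ⟨u', hu', hxu'⟩ := h.1 (e - k) (by omega) u
        (by rw [show e - k + k = e by omega]; exact hu)
      have h1 : y * u' = 0 := by
        apply h.2 (i + (e - k)) (by omega) (by omega) _ (mul_mem hy hu')
        calc x * (y * u') = y * (x * u') := by ring
          _ = 0 := by rw [hxu', hyu]
      have h2 : u' = 0 := by
        apply h.2 (e - k) (by omega) (by omega) _ hu'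
        rw [← hyz, mul_comm y z, mul_assoc, h1, mul_zero]
      rw [← hxu', h2, mul_zero]

/-- products of classes of positive degree vanish in degree `k` -/
theorem MinimalPeriodic.prod {k : ℕ} {x : A.H} (h : A.MinimalPeriodic k x) {i j : ℕ} (hi : 0 < i)
    (hj : 0 < j) (hij : i + j = k) {y z : A.H} (hy : y ∈ A.gr i) (hz : z ∈ A.gr j) :
    y * z = 0 := by
  have hm : y * z ∈ A.gr k := hij ▸ mul_mem hy hz
  rcases h.periodic.top h.pos hm with h0 | h1
  · exact h0
  · exfalso
    refine h.minimal i hi (by omega) y hy ?_ (h.periodic.factor hi hij hy hz h1)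
    rintro rfl
    exact h.ne_zero (by rw [← h1, zero_mul])

/-- the square of `Sq^r a` is `Sq^(2r)` of the square of `a` -/
theorem Sq_mul_self (r : ℕ) (a : A.H) : A.Sq (2 * r) (a * a) = A.Sq r a * A.Sq r a := by
  rw [A.cartan]
  have hmem : (r, r) ∈ antidiagonal (2 * r) := by simp [two_mul]
  rw [← Finset.add_sum_erase _ _ hmem]
  have : ∑ p ∈ (antidiagonal (2 * r)).erase (r, r), A.Sq p.1 a * A.Sq p.2 a = 0 := by
    apply Finset.sum_involution (fun p _ => (p.2, p.1))
    · intro p _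
      rw [mul_comm (A.Sq p.2 a), add_self]
    · rintro ⟨p, q⟩ hp _ h
      simp only [Prod.mk.injEq] at h
      simp only [mem_erase, Finset.HasAntidiagonal.mem_antidiagonal, ne_eq, Prod.mk.injEq] at hp
      omega
    · rintro ⟨p, q⟩ hp
      simp only [mem_erase, Finset.HasAntidiagonal.mem_antidiagonal, ne_eq, Prod.mk.injEq] at hp ⊢
      omega
    · intro p _
      rfl
  rw [this, add_zero]

/-- the key descent: `Sq^r a` is never equal to `x` -/
theorem descent {k : ℕ} {x : A.H} (hk : 0 < k) (hx : x ∈ A.gr k) (hx0 : x ≠ 0)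
    (h : A.Periodic k x (2 * k))
    (h1 : ∀ r d, 0 < r → 0 < d → d + r = k → ∀ c ∈ A.gr d, A.Sq r (x * c) = x * A.Sq r c)
    (h2 : ∀ j, 2 * j = k → ∀ a ∈ A.gr j, a * a ≠ x) :
    ∀ d r, 0 < r → 0 < d → d + r = k → ∀ a ∈ A.gr d, A.Sq r a = 0 := by
  intro d
  induction d using Nat.strong_induction_on with
  | _ d ih =>
    intro r hr hd hdr a ha
    have hmem : A.Sq r a ∈ A.gr k := hdr ▸ A.Sq_mem r d a ha
    rcases h.top hk hmem with h0 | hxe
    · exact h0
    exfalso
    rcases lt_trichotomy d r with hlt | heq | hgt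
    · exact hx0 (by rw [← hxe, A.Sq_high r d a ha hlt])
    · subst heq
      exact h2 d (by omega) a ha (by rw [← A.Sq_self d a ha, hxe])
    · have hsq : x * x = A.Sq (2 * r) (a * a) := by rw [Sq_mul_self, hxe]
      have haa : a * a ∈ A.gr (d - r + k) := by
        have := mul_mem ha ha
        rwa [show d + d = d - r + k by omega] at this
      obtain ⟨c, hc, hxc⟩ := h.1 (d - r) (by omega) _ haa
      rw [← hxc, h1 (2 * r) (d - r) (by omega) (by omega) (by omega) c hc] at hsq
      have hcm : A.Sq (2 * r) c ∈ A.gr k := by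
        have := A.Sq_mem (2 * r) (d - r) c hc
        rwa [show d - r + 2 * r = k by omega] at this
      have hxe' := h.cancel hk le_rfl hx hcm hsq
      have := ih (d - r) (by omega) (2 * r) (by omega) (by omega) (by omega) c hc
      exact hx0 (by rw [hxe', this])

/-- `Sq^r` vanishes on classes of degree `2k - r`, `0 < r < k` -/
theorem sq_top_zero {k : ℕ} {x : A.H} (hk : 0 < k) (hx : x ∈ A.gr k) (hx0 : x ≠ 0)
    (h : A.Periodic k x (2 * k))
    (h1 : ∀ r d, 0 < r → 0 < d → d + r = k → ∀ c ∈ A.gr d, A.Sq r (x * c) = x * A.Sq r c)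
    (h2 : ∀ j, 2 * j = k → ∀ a ∈ A.gr j, a * a ≠ x) {r : ℕ} (hr : 0 < r) (hrk : r < k)
    {z : A.H} (hz : z ∈ A.gr (k + k - r)) : A.Sq r z = 0 := by
  obtain ⟨a, ha, hxa⟩ := h.1 (k - r) (by omega) z
    (by rw [show k - r + k = k + k - r by omega]; exact hz)
  rw [← hxa, h1 r (k - r) hr (by omega) (by omega) a ha,
    descent hk hx hx0 h h1 h2 (k - r) r hr (by omega) (by omega) a ha, mul_zero]

/-- in the minimal case `Sq^r (x c) = x Sq^r c` in degree `2k` -/
theorem MinimalPeriodic.sq_mul {k : ℕ} {x : A.H} (h : A.MinimalPeriodic k x) (r d : ℕ)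
    (hr : 0 < r) (hd : 0 < d) (hdr : d + r = k) (c : A.H) (hc : c ∈ A.gr d) :
    A.Sq r (x * c) = x * A.Sq r c := by
  rw [A.cartan]
  rw [Finset.sum_eq_single (0, r)]
  · rw [A.Sq_zero]
  · rintro ⟨p, q⟩ hpq hne
    rw [Finset.HasAntidiagonal.mem_antidiagonal] at hpq
    simp only [ne_eq, Prod.mk.injEq, not_and] at hne hpq ⊢
    have hp : 0 < p := by
      rcases Nat.eq_zero_or_pos p with h0 | h0
      · exact absurd (by omega) (hne h0)
      · exact h0
    obtain ⟨w, hw, hxw⟩ := h.periodic.1 p (by omega) (A.Sq p x)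
      (by rw [add_comm]; exact A.Sq_mem p k x h.mem)
    have hq := A.Sq_mem q d c hc
    rw [← hxw, mul_assoc, h.prod hp (by omega) (by omega) hw hq, mul_zero]
  · intro hn
    exact absurd (by simp) hn

theorem MinimalPeriodic.sq_ne {k : ℕ} {x : A.H} (h : A.MinimalPeriodic k x) (j : ℕ)
    (hj : 2 * j = k) (a : A.H) (ha : a ∈ A.gr j) : a * a ≠ x := by
  have hk := h.pos
  rw [h.prod (by omega) (by omega) (by omega : j + j = k) ha ha]
  exact h.ne_zero.symm

theorem odd_choose (s : ℕ) : ∀ a, a < 2 ^ s → Odd ((2 ^ s - 1).choose a) := by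
  intro a
  induction a with
  | zero => intro _; simp
  | succ a ih =>
    intro ha
    have h1 : 2 ∣ (2 ^ s).choose (a + 1) :=
      Nat.Prime.dvd_choose_pow Nat.prime_two (by omega) (by omega)
    have h2 : (2 ^ s).choose (a + 1) = (2 ^ s - 1).choose a + (2 ^ s - 1).choose (a + 1) := by
      obtain ⟨t, ht⟩ : ∃ t, 2 ^ s = t + 1 := ⟨2 ^ s - 1, by omega⟩
      rw [ht, Nat.choose_succ_succ]
      simp
    have h3 := ih (by omega)
    rw [h2] at h1
    rw [Nat.odd_iff] at h3 ⊢
    omega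

theorem MinimalPeriodic.sq_top {k : ℕ} {x : A.H} (h : A.MinimalPeriodic k x) {r : ℕ}
    (hr : 0 < r) (hrk : r < k) {z : A.H} (hz : z ∈ A.gr (k + k - r)) : A.Sq r z = 0 :=
  sq_top_zero h.pos h.mem h.ne_zero h.periodic h.sq_mul h.sq_ne hr hrk hz

theorem MinimalPeriodic.sq_eq_zero {k : ℕ} {x : A.H} (h : A.MinimalPeriodic k x) {r : ℕ}
    (hr : 0 < r) (hrk : r < k) {a : A.H} (ha : a ∈ A.gr (k - r)) : A.Sq r a = 0 :=
  descent h.pos h.mem h.ne_zero h.periodic h.sq_mul h.sq_ne (k - r) r hr (by omega) (by omega) a ha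

theorem MinimalPeriodic.sq_self_ne {k : ℕ} {x : A.H} (h : A.MinimalPeriodic k x) : x * x ≠ 0 :=
  h.periodic.sq_ne h.pos h.mem h.ne_zero

/-- the square of `x` is not a sum of values `Sq^r v`, `0 < r < k` -/
theorem MinimalPeriodic.not_decomposes {k : ℕ} {x : A.H} (h : A.MinimalPeriodic k x) :
    ¬ A.Decomposes (fun r => A.Sq r) k (2 * k) (x * x) := by
  rintro ⟨v, hv, hsum⟩
  apply h.sq_self_ne
  rw [hsum]
  apply Finset.sum_eq_zero
  intro r hr
  rw [mem_Ioo] at hr
  apply h.sq_top hr.1 hr.2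
  rw [← two_mul]
  exact hv r hr.1 hr.2 (by omega)

/-- the decomposition of `Sq^n` when `n` is not a power of two -/
theorem exists_adem (n : ℕ) (hn : 0 < n) (hp : ∀ i, n ≠ 2 ^ i) : ∃ a s, n = a + 2 ^ s ∧ 0 < a ∧
    a < 2 ^ s := by
  have h2 : 2 ^ Nat.log 2 n ≤ n := Nat.pow_log_le_self 2 (by omega)
  have h3 : n < 2 ^ (Nat.log 2 n + 1) := Nat.lt_pow_succ_log_self (by norm_num) n
  have h4 := hp (Nat.log 2 n)
  rw [pow_succ] at h3
  exact ⟨n - 2 ^ Nat.log 2 n, Nat.log 2 n, by omega, by omega, by omega⟩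

theorem sq_eq {a s : ℕ} (has : a < 2 ^ s) (z : A.H) :
    A.Sq (a + 2 ^ s) z = A.Sq a (A.Sq (2 ^ s) z) - ∑ c ∈ range (a / 2),
      (2 ^ s - (c + 1) - 1).choose (a - 2 * (c + 1)) •
        A.Sq (a + 2 ^ s - (c + 1)) (A.Sq (c + 1) z) := by
  have hadem := A.adem a (2 ^ s) z (by omega)
  rw [Finset.sum_range_succ'] at hadem
  simp only [Nat.sub_zero, mul_zero, A.Sq_zero] at hadem
  rw [nsmul_odd (odd_choose s a has)] at hadem
  rw [hadem]
  ring

/-- Adem's theorem with low-dimensional classes (Kennard): the degree is a power of two -/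
theorem MinimalPeriodic.pow_two {k : ℕ} {x : A.H} (h : A.MinimalPeriodic k x) :
    ∃ m, k = 2 ^ m := by
  by_contra hc
  push Not at hc
  obtain ⟨a, s, hk, ha, has⟩ := exists_adem k h.pos hc
  apply h.sq_self_ne
  rw [← A.Sq_self k x h.mem]
  have h1 := sq_eq has x
  rw [← hk] at h1
  rw [h1, h.sq_top ha (by omega) ?_, zero_sub, neg_eq_zero]
  · apply Finset.sum_eq_zero
    intro c hc'
    rw [mem_range] at hc'
    rw [h.sq_top (r := k - (c + 1)) (by omega) (by omega) ?_, smul_zero]
    have := A.Sq_mem (c + 1) k x h.mem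
    rwa [show k + (c + 1) = k + k - (k - (c + 1)) by omega] at this
  · have := A.Sq_mem (2 ^ s) k x h.mem
    rwa [show k + 2 ^ s = k + k - a by omega] at this

end UAlg

end Pool.Agent.Helper40.BP
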