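import Mathlib

/-!
# Connected unstable algebras over the mod 2 Steenrod algebra, vector bundles, Adams' theorem

The cohomology algebra `H^*(M; Z_2)` of a connected space `M`, as an abstract structure: a
connected graded commutative algebra over `Z_2` with Steenrod squares; the Stiefel-Whitney classes
of a vector bundle over `M`, as the classes which describe the Steenrod squares in the cohomology
`H^*(M; Z_2) U` of its Thom space. Adams' theorem on secondary operations for Thom spaces is a
separate proposition.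
-/

set_option autoImplicit false

namespace Pool.Agent.Helper40.BP

open Finset

universe u v

/-- A connected unstable algebra over the mod 2 Steenrod algebra, for example the mod 2 cohomology
algebra `H = ⨁ H^n(M; Z_2)` of a connected space `M`: a commutative algebra over `Z_2`, graded by
`gr n = H^n(M; Z_2)`, with `gr 0 = {0, 1}`, and Steenrod squares. -/
structure UAlg where
  /-- the underlying algebra -/
  H : Type u
  [ring : CommRing H]
  [alg : Algebra (ZMod 2) H]
  /-- the classes of degree `n` -/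
  gr : ℕ → Submodule (ZMod 2) H
  [graded : GradedAlgebra gr]
  /-- the Steenrod square `Sq^i` -/
  Sq : ℕ → H →+ H
  nontrivial : (1 : H) ≠ 0
  connected : ∀ a ∈ gr 0, a = 0 ∨ a = 1
  Sq_mem : ∀ i n a, a ∈ gr n → Sq i a ∈ gr (n + i)
  Sq_zero : ∀ a, Sq 0 a = a
  Sq_self : ∀ n a, a ∈ gr n → Sq n a = a * a
  Sq_high : ∀ i n a, a ∈ gr n → n < i → Sq i a = 0
  cartan : ∀ n a b, Sq n (a * b) = ∑ p ∈ antidiagonal n, Sq p.1 a * Sq p.2 b
  adem : ∀ i j a, i < 2 * j →
    Sq i (Sq j a) = ∑ c ∈ range (i / 2 + 1), (j - c - 1).choose (i - 2 * c) • Sq (i + j - c) (Sq c a)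

attribute [instance] UAlg.ring UAlg.alg UAlg.graded

namespace UAlg

variable (A : UAlg.{u})

/-- `y`, of degree `j`, induces periodicity up to degree `c`: multiplication by `y` from degree `i`
to degree `i + j` is surjective for `0 ≤ i < c - j` and injective for `0 < i ≤ c - j`. -/
def Periodic (j : ℕ) (y : A.H) (c : ℕ) : Prop :=
  (∀ i, i + j < c → ∀ z ∈ A.gr (i + j), ∃ u ∈ A.gr i, y * u = z) ∧
    ∀ i, 0 < i → i + j ≤ c → ∀ u ∈ A.gr i, y * u = 0 → u = 0

/-- `x`, a nonzero class of positive degree `k`, induces periodicity up to degree `2 * k` and has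
minimal degree: no nonzero class of degree `j`, `0 < j < k`, induces periodicity up to degree
`2 * k`. -/
structure MinimalPeriodic (k : ℕ) (x : A.H) : Prop where
  pos : 0 < k
  mem : x ∈ A.gr k
  ne_zero : x ≠ 0
  periodic : A.Periodic k x (2 * k)
  minimal : ∀ j, 0 < j → j < k → ∀ y ∈ A.gr j, y ≠ 0 → ¬ A.Periodic j y (2 * k)

/-- the Steenrod square `Sq^i (a U) = (thomSq w i a) U` in the cohomology of the Thom space of a
vector bundle with Stiefel-Whitney classes `w` -/
def thomSq (w : ℕ → A.H) (i : ℕ) (a : A.H) : A.H :=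
  ∑ p ∈ antidiagonal i, A.Sq p.1 a * w p.2

/-- `z`, of degree `n`, is a sum of values `S^r v` with `0 < r < l`, `v` of degree `n - r`. -/
def Decomposes (S : ℕ → A.H → A.H) (l n : ℕ) (z : A.H) : Prop :=
  ∃ v : ℕ → A.H, (∀ r, 0 < r → r < l → r ≤ n → v r ∈ A.gr (n - r)) ∧
    z = ∑ r ∈ Ioo 0 l, S r (v r)

end UAlg

/-- The properties of the mod 2 cohomology of connected spaces (finite dimensional CW complexes)
and of vector bundles over them which we use. -/
structure Theory where
  /-- connected finite dimensional CW complexes -/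
  Space : Type v
  /-- their mod 2 cohomology algebras -/
  coh : Space → UAlg.{u}
  /-- real vector bundles -/
  Bundle : Space → Type u
  /-- the rank of a vector bundle -/
  rank : ∀ {M}, Bundle M → ℕ
  /-- the Stiefel-Whitney classes of a vector bundle -/
  sw : ∀ {M}, Bundle M → ℕ → (coh M).H
  sw_mem : ∀ {M} (E : Bundle M) i, sw E i ∈ (coh M).gr i
  sw_zero : ∀ {M} (E : Bundle M), sw E 0 = 1
  sw_high : ∀ {M} (E : Bundle M) i, rank E < i → sw E i = 0
  /-- the Adem relations for the Thom class (Wu's formula) -/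
  sw_adem : ∀ {M} (E : Bundle M) i j, i < 2 * j →
    (coh M).thomSq (sw E) i (sw E j) =
      ∑ c ∈ range (i / 2 + 1), (j - c - 1).choose (i - 2 * c) •
        (coh M).thomSq (sw E) (i + j - c) (sw E c)
  /-- the Whitney sum -/
  add : ∀ {M}, Bundle M → Bundle M → Bundle M
  rank_add : ∀ {M} (E F : Bundle M), rank (add E F) = rank E + rank F
  sw_add : ∀ {M} (E F : Bundle M) n,
    sw (add E F) n = ∑ p ∈ antidiagonal n, sw E p.1 * sw F p.2
  /-- every vector bundle has a complement -/
  compl : ∀ {M} (E : Bundle M), ∃ F, ∀ n, 0 < n → sw (add E F) n = 0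
  /-- real line bundles -/
  line : ∀ {M}, ∀ a ∈ (coh M).gr 1, ∃ E : Bundle M, rank E = 1 ∧ sw E 1 = a
  /-- the reductions of the integral classes of degree two -/
  integral : ∀ M, Set (coh M).H
  /-- complex line bundles -/
  complexLine : ∀ {M}, ∀ a ∈ integral M, ∃ E : Bundle M, rank E = 2 ∧ sw E 1 = 0 ∧ sw E 2 = a

/-- Adams' theorem (1960) on the decomposition of `Sq^(2^m)`, `m ≥ 4`, by secondary operations, in
the Thom space of a vector bundle: if `Sq^(2^i) (a U) = 0` for all `i < m`, then `Sq^(2^m) (a U)`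
is a sum of values `Sq^r (v U)`, `0 < r < 2^m`. -/
def Theory.Adams (T : Theory.{u, v}) : Prop :=
  ∀ (M : T.Space) (E : T.Bundle M) (m : ℕ), 4 ≤ m → ∀ n, ∀ a ∈ (T.coh M).gr n,
    (∀ i < m, (T.coh M).thomSq (T.sw E) (2 ^ i) a = 0) →
    (T.coh M).Decomposes ((T.coh M).thomSq (T.sw E)) (2 ^ m) (n + 2 ^ m)
      ((T.coh M).thomSq (T.sw E) (2 ^ m) a)

end Pool.Agent.Helper40.BP
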