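import Pool.Agent.Helper40.BP.Basic

set_option autoImplicit false

namespace Pool.Agent.Helper40.BP

open Finset

universe u v

namespace UAlg

variable {A : UAlg.{u}}

/-- the total Steenrod square -/
noncomputable def tot (a : A.H) : PowerSeries A.H := PowerSeries.mk fun i => A.Sq i a

theorem tot_mul (a b : A.H) : tot (a * b) = tot a * tot b := by
  ext n
  rw [tot, PowerSeries.coeff_mk, A.cartan, PowerSeries.coeff_mul]
  simp [tot]

theorem thomSq_eq (w : ℕ → A.H) (i : ℕ) (a : A.H) :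
    A.thomSq w i a = PowerSeries.coeff i (tot a * PowerSeries.mk w) := by
  rw [PowerSeries.coeff_mul]
  simp [tot, thomSq]

theorem thomSq_mul (w : ℕ → A.H) (i : ℕ) (x a : A.H) :
    A.thomSq w i (x * a) = ∑ p ∈ antidiagonal i, A.Sq p.1 a * A.thomSq w p.2 x := by
  rw [thomSq_eq, tot_mul, mul_comm (tot x), mul_assoc, PowerSeries.coeff_mul]
  simp [thomSq_eq, tot]

theorem Sq_one {i : ℕ} (hi : 0 < i) : A.Sq i 1 = 0 :=
  A.Sq_high i 0 1 SetLike.GradedOne.one_mem hi

theorem thomSq_one (w : ℕ → A.H) (i : ℕ) : A.thomSq w i 1 = w i := by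
  rw [thomSq, Finset.sum_eq_single (0, i)]
  · rw [A.Sq_zero, one_mul]
  · rintro ⟨p, q⟩ hpq hne
    rw [Finset.HasAntidiagonal.mem_antidiagonal] at hpq
    simp only [ne_eq, Prod.mk.injEq, not_and] at hne hpq ⊢
    have hp : 0 < p := by
      rcases Nat.eq_zero_or_pos p with h0 | h0
      · exact absurd (by omega) (hne h0)
      · exact h0
    rw [Sq_one hp, zero_mul]
  · intro hn
    exact absurd (by simp) hn

/-- the squares `Sq^a x`, `a < k`, are determined by those with `a` a power of two -/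
theorem sw_of_pow {k : ℕ} {x : A.H} {w : ℕ → A.H} (hw0 : w 0 = 1)
    (hadem : ∀ i j, i < 2 * j → A.thomSq w i (w j) =
      ∑ c ∈ range (i / 2 + 1), (j - c - 1).choose (i - 2 * c) • A.thomSq w (i + j - c) (w c))
    (hs : ∀ i, 2 ^ i < k → A.Sq (2 ^ i) x = x * w (2 ^ i)) :
    ∀ a, a < k → A.Sq a x = x * w a := by
  intro a
  induction a using Nat.strong_induction_on with
  | _ a ih =>
    intro hak
    rcases Nat.eq_zero_or_pos a with h0 | h0
    · subst h0
      rw [A.Sq_zero, hw0, mul_one]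
    by_cases hp : ∃ i, a = 2 ^ i
    · obtain ⟨i, rfl⟩ := hp
      exact hs i hak
    push Not at hp
    obtain ⟨b, s, hab, hb, hbs⟩ := exists_adem a h0 hp
    have key : ∀ r j, r < a → j < a → A.Sq r (A.Sq j x) = x * A.thomSq w r (w j) := by
      intro r j hr hj
      rw [ih j hj (by omega), A.cartan, thomSq, Finset.mul_sum]
      rw [← Finset.Nat.sum_antidiagonal_swap]
      apply Finset.sum_congr rfl
      rintro ⟨p, q⟩ hpq
      rw [Finset.HasAntidiagonal.mem_antidiagonal] at hpq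
      simp only at hpq
      simp only [Prod.swap_prod_mk]
      rw [ih q (by omega) (by omega)]
      ring
    have h1 := sq_eq hbs x
    have h2 := hadem b (2 ^ s) (by omega)
    rw [Finset.sum_range_succ'] at h2
    simp only [Nat.sub_zero, mul_zero, hw0, thomSq_one] at h2
    rw [nsmul_odd (odd_choose s b hbs)] at h2
    rw [hab, h1, key b (2 ^ s) (by omega) (by omega)]
    have h3 : w (b + 2 ^ s) = A.thomSq w b (w (2 ^ s)) - ∑ c ∈ range (b / 2),
        (2 ^ s - (c + 1) - 1).choose (b - 2 * (c + 1)) •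
          A.thomSq w (b + 2 ^ s - (c + 1)) (w (c + 1)) := by
      rw [h2]; ring
    rw [h3, mul_sub, Finset.mul_sum]
    congr 1
    apply Finset.sum_congr rfl
    intro c hc
    rw [mem_range] at hc
    rw [key _ _ (by omega) (by omega), mul_smul_comm]

end UAlg

namespace Theory

variable {T : Theory.{u, v}} {M : T.Space}

/-- the class `x U` in the Thom space of a complement `F` of a vector bundle `E` whose
Stiefel-Whitney classes describe the Steenrod squares of `x` -/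
theorem thom {k : ℕ} {x : (T.coh M).H} (h : (T.coh M).MinimalPeriodic k x)
    (E F : T.Bundle M) (hE : T.sw E k = 0)
    (hs : ∀ i, 2 ^ i < k → (T.coh M).Sq (2 ^ i) x = x * T.sw E (2 ^ i))
    (hF : ∀ n, 0 < n → T.sw (T.add E F) n = 0) :
    (∀ i, 0 < i → i < k → (T.coh M).thomSq (T.sw F) i x = 0) ∧
      (T.coh M).thomSq (T.sw F) k x = x * x ∧
      ¬ (T.coh M).Decomposes ((T.coh M).thomSq (T.sw F)) k (2 * k) (x * x) := by
  have hsq : ∀ a < k, (T.coh M).Sq a x = x * T.sw E a := by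
    obtain ⟨m, hm⟩ := h.pow_two
    exact UAlg.sw_of_pow (T.sw_zero E) (T.sw_adem E) hs
  have hlow : ∀ i, 0 < i → i < k → (T.coh M).thomSq (T.sw F) i x = 0 := by
    intro i hi hik
    have : (T.coh M).thomSq (T.sw F) i x = x * T.sw (T.add E F) i := by
      rw [T.sw_add, UAlg.thomSq, Finset.mul_sum]
      apply Finset.sum_congr rfl
      rintro ⟨p, q⟩ hpq
      rw [Finset.HasAntidiagonal.mem_antidiagonal] at hpq
      simp only at hpq ⊢
      rw [hsq p (by omega)]
      ring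
    rw [this, hF i hi, mul_zero]
  have htop : (T.coh M).thomSq (T.sw F) k x = x * x := by
    have hmem : (k, 0) ∈ antidiagonal k := by simp
    have h1 := T.sw_add E F k
    rw [hF k h.pos, ← Finset.add_sum_erase _ _ hmem] at h1
    simp only [hE, zero_mul, zero_add] at h1
    rw [UAlg.thomSq, ← Finset.add_sum_erase _ _ hmem]
    simp only [T.sw_zero, mul_one, (T.coh M).Sq_self k x h.mem]
    have h2 : ∑ p ∈ (antidiagonal k).erase (k, 0), (T.coh M).Sq p.1 x * T.sw F p.2 =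
        x * ∑ p ∈ (antidiagonal k).erase (k, 0), T.sw E p.1 * T.sw F p.2 := by
      rw [Finset.mul_sum]
      apply Finset.sum_congr rfl
      rintro ⟨p, q⟩ hpq
      simp only [mem_erase, Finset.HasAntidiagonal.mem_antidiagonal, ne_eq, Prod.mk.injEq] at hpq
      simp only
      rw [hsq p (by omega)]
      ring
    rw [h2, ← h1, mul_zero, add_zero]
  refine ⟨hlow, htop, ?_⟩
  rintro ⟨v, hv, hsum⟩
  apply h.sq_self_ne
  rw [hsum]
  apply Finset.sum_eq_zero
  intro r hr
  rw [mem_Ioo] at hr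
  have hvr := hv r hr.1 hr.2 (by omega)
  obtain ⟨a, ha, hxa⟩ := h.periodic.1 (k - r) (by omega) (v r)
    (by rw [show k - r + k = 2 * k - r by omega]; exact hvr)
  rw [← hxa, UAlg.thomSq_mul, Finset.sum_eq_single (r, 0)]
  · simp only
    rw [h.sq_eq_zero hr.1 hr.2 ha, zero_mul]
  · rintro ⟨p, q⟩ hpq hne
    rw [Finset.HasAntidiagonal.mem_antidiagonal] at hpq
    simp only [ne_eq, Prod.mk.injEq, not_and] at hne hpq ⊢
    have hq : 0 < q := by
      rcases Nat.eq_zero_or_pos q with h0 | h0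
      · exact absurd h0 (hne (by omega))
      · exact h0
    rw [hlow q hq (by omega), mul_zero]
  · intro hn
    exact absurd (by simp) hn

/-- the case of Stiefel-Whitney classes of a vector bundle -/
theorem mem_of_bundle (hT : T.Adams) {k : ℕ} {x : (T.coh M).H}
    (h : (T.coh M).MinimalPeriodic k x) (E : T.Bundle M) (hE : T.sw E k = 0)
    (hs : ∀ i, 2 ^ i < k → (T.coh M).Sq (2 ^ i) x = x * T.sw E (2 ^ i)) :
    k = 1 ∨ k = 2 ∨ k = 4 ∨ k = 8 := by
  obtain ⟨m, hm⟩ := h.pow_two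
  rcases Nat.lt_or_ge m 4 with hm4 | hm4
  · subst hm
    interval_cases m <;> simp
  exfalso
  obtain ⟨F, hF⟩ := T.compl E
  obtain ⟨hlow, htop, hdec⟩ := thom h E F hE hs hF
  have := hT M F m hm4 k x h.mem (fun i hi => hlow (2 ^ i) (by positivity) (by
    rw [hm]; exact Nat.pow_lt_pow_right (by norm_num) hi))
  rw [← hm, htop, ← two_mul] at this
  exact hdec this

/-- only `Sq^1 x` and `Sq^2 x` are allowed to be nonzero, and `Sq^2 x = x a` with `a` integral -/
theorem mem_of_line (hT : T.Adams) {k : ℕ} {x : (T.coh M).H}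
    (h : (T.coh M).MinimalPeriodic k x) {a : (T.coh M).H} (ha : a ∈ T.integral M) (h2 : 2 < k → (T.coh M).Sq 2 x = x * a)
    (hs : ∀ i, 2 ≤ i → 2 ^ i < k → (T.coh M).Sq (2 ^ i) x = 0) :
    k = 1 ∨ k = 2 ∨ k = 4 ∨ k = 8 := by
  rcases Nat.lt_or_ge 4 k with hk | hk
  swap
  · obtain ⟨m, rfl⟩ := h.pow_two
    have : m < 4 := by
      by_contra hm
      have : 2 ^ 4 ≤ 2 ^ m := Nat.pow_le_pow_right (by norm_num) (by omega)
      omega
    interval_cases m <;> simp
  obtain ⟨w, hw, hxw⟩ := h.periodic.1 1 (by omega) ((T.coh M).Sq 1 x)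
    (by rw [add_comm]; exact (T.coh M).Sq_mem 1 k x h.mem)
  obtain ⟨E, hE, hEw⟩ := T.line w hw
  obtain ⟨F, hF, hF1, hF2⟩ := T.complexLine a ha
  have hr : T.rank (T.add E F) = 3 := by rw [T.rank_add, hE, hF]
  apply mem_of_bundle hT h (T.add E F) (T.sw_high _ k (by omega))
  intro i hi
  rcases Nat.lt_or_ge i 2 with hi2 | hi2
  · interval_cases i
    · rw [pow_zero, T.sw_add, Finset.Nat.sum_antidiagonal_eq_sum_range_succ_mk]
      simp [Finset.sum_range_succ, T.sw_zero, hEw, hF1, hxw]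
    · rw [pow_one, T.sw_add, Finset.Nat.sum_antidiagonal_eq_sum_range_succ_mk]
      simp [Finset.sum_range_succ, T.sw_zero, hF1, hF2, T.sw_high E 2 (by omega), h2 (by omega)]
  · rw [hs i hi2 hi, T.sw_high _ (2 ^ i) (by
      have : 2 ^ 2 ≤ 2 ^ i := Nat.pow_le_pow_right (by norm_num) hi2
      omega), mul_zero]

/-- low-dimensional cohomology only in degrees which are not powers of two, except `1` and `2` -/
theorem mem_of_vanishing (hT : T.Adams) {k : ℕ} {x : (T.coh M).H}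
    (h : (T.coh M).MinimalPeriodic k x) (h0 : ∀ i, 2 ≤ i → 2 ^ i < k → ∀ b ∈ (T.coh M).gr (2 ^ i), b = 0)
    (h2 : ∀ b ∈ (T.coh M).gr 2, b ∈ T.integral M) : k = 1 ∨ k = 2 ∨ k = 4 ∨ k = 8 := by
  have hsq : ∀ i, i < k → ∃ w ∈ (T.coh M).gr i, x * w = (T.coh M).Sq i x := by
    intro i hi
    exact h.periodic.1 i (by omega) _ (by rw [add_comm]; exact (T.coh M).Sq_mem i k x h.mem)
  rcases Nat.lt_or_ge 2 k with hk | hk
  · obtain ⟨a, ha, hxa⟩ := hsq 2 hk
    apply mem_of_line hT h (h2 a ha) (fun _ => hxa.symm)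
    intro i hi hik
    obtain ⟨w, hw, hxw⟩ := hsq (2 ^ i) hik
    rw [← hxw, h0 i hi hik w hw, mul_zero]
  · have := h.pos
    omega

end Theory

theorem main {T : Theory.{u, v}} {M : T.Space} {k : ℕ} {x : (T.coh M).H}
    (h : (T.coh M).MinimalPeriodic k x) :
    ((∃ m, k = 2 ^ m) ∧
      ¬ (T.coh M).Decomposes (fun r a => (T.coh M).Sq r a) k (2 * k) (x * x)) ∧
    (∀ E F : T.Bundle M, T.sw E k = 0 →
      (∀ i, 2 ^ i < k → (T.coh M).Sq (2 ^ i) x = x * T.sw E (2 ^ i)) →
      (∀ n, 0 < n → T.sw (T.add E F) n = 0) →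
      (∀ i, 0 < i → i < k → (T.coh M).thomSq (T.sw F) i x = 0) ∧
        (T.coh M).thomSq (T.sw F) k x = x * x ∧
        ¬ (T.coh M).Decomposes ((T.coh M).thomSq (T.sw F)) k (2 * k) (x * x)) ∧
    (T.Adams →
      (∀ E : T.Bundle M, T.sw E k = 0 →
        (∀ i, 2 ^ i < k → (T.coh M).Sq (2 ^ i) x = x * T.sw E (2 ^ i)) →
        k = 1 ∨ k = 2 ∨ k = 4 ∨ k = 8) ∧
      (∀ a ∈ T.integral M, (2 < k → (T.coh M).Sq 2 x = x * a) →
        (∀ i, 2 ≤ i → 2 ^ i < k → (T.coh M).Sq (2 ^ i) x = 0) →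
        k = 1 ∨ k = 2 ∨ k = 4 ∨ k = 8) ∧
      ((∀ i, 2 ≤ i → 2 ^ i < k → ∀ b ∈ (T.coh M).gr (2 ^ i), b = 0) →
        (∀ b ∈ (T.coh M).gr 2, b ∈ T.integral M) →
        k = 1 ∨ k = 2 ∨ k = 4 ∨ k = 8)) :=
  ⟨⟨h.pow_two, h.not_decomposes⟩, fun E F hE hs hF => Theory.thom h E F hE hs hF,
    fun hT => ⟨fun E hE hs => Theory.mem_of_bundle hT h E hE hs,
      fun _ ha h2 hs => Theory.mem_of_line hT h ha h2 hs,
      fun h0 h2 => Theory.mem_of_vanishing hT h h0 h2⟩⟩

end Pool.Agent.Helper40.BP
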